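import Pool.Agent.H705.FP.Stm

/-!
FEJ: the Fejer kernel is nonnegative (subtask of helper705, proved by helper349).
-/

set_option autoImplicit false

namespace Pool.Agent.H349.FP

open Finset Pool.Agent.H705.FP

theorem icc_sum {M : Type} [AddCommMonoid M] (f : ℤ → M) (K : ℕ) :
    ∑ k ∈ Finset.Icc (-(K : ℤ)) K, f k =
      f 0 + ∑ l ∈ range K, (f ((l : ℤ) + 1) + f (-((l : ℤ) + 1))) := by
  induction K with
  | zero => simp
  | succ K ih =>
    have e : Finset.Icc (-((K + 1 : ℕ) : ℤ)) ((K + 1 : ℕ) : ℤ) =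
        insert ((K : ℤ) + 1) (insert (-((K : ℤ) + 1)) (Finset.Icc (-(K : ℤ)) K)) := by
      ext x
      simp only [Finset.mem_Icc, Finset.mem_insert]
      push_cast
      constructor
      · intro h
        by_cases h1 : x = (K : ℤ) + 1
        · exact Or.inl h1
        · by_cases h2 : x = -((K : ℤ) + 1)
          · exact Or.inr (Or.inl h2)
          · right; right
            omega
      · rintro (h | h | h)
        · omega
        · omega
        · omega
    rw [e, Finset.sum_insert, Finset.sum_insert, ih, Finset.sum_range_succ]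
    · abel
    · simp only [Finset.mem_Icc]
      omega
    · simp only [Finset.mem_insert, Finset.mem_Icc]
      omega

theorem fej_eq (K : ℕ) (θ : ℝ) :
    fej K θ = 1 + ∑ l ∈ range K, 2 * (1 - ((l : ℝ) + 1) / (K + 1)) * Real.cos (((l : ℝ) + 1) * θ) := by
  unfold fej
  rw [icc_sum]
  congr 1
  · simp
  · refine Finset.sum_congr rfl fun l _ => ?_
    have h1 : |(((l : ℤ) + 1 : ℤ) : ℝ)| = (l : ℝ) + 1 := by
      push_cast
      rw [abs_of_nonneg (by positivity)]
    have h2 : |((-((l : ℤ) + 1) : ℤ) : ℝ)| = (l : ℝ) + 1 := by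
      push_cast
      rw [abs_of_nonpos (by
        have : (0:ℝ) ≤ l := Nat.cast_nonneg l
        linarith)]
      ring
    have h3 : Real.cos (((-((l : ℤ) + 1) : ℤ) : ℝ) * θ) = Real.cos (((l : ℝ) + 1) * θ) := by
      push_cast
      rw [← Real.cos_neg]
      congr 1
      ring
    have h4 : Real.cos ((((l : ℤ) + 1 : ℤ) : ℝ) * θ) = Real.cos (((l : ℝ) + 1) * θ) := by
      push_cast
      rfl
    rw [h1, h2, h3, h4]
    ring

theorem sq_eq (K : ℕ) (θ : ℝ) :
    ((K : ℝ) + 1) + 2 * ∑ l ∈ range K, ((K : ℝ) - l) * Real.cos (((l : ℝ) + 1) * θ) =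
      (∑ i ∈ range (K + 1), Real.cos ((i : ℝ) * θ)) ^ 2 +
        (∑ i ∈ range (K + 1), Real.sin ((i : ℝ) * θ)) ^ 2 := by
  induction K with
  | zero => simp
  | succ K ih =>
    have hs : ∑ i ∈ range (K + 1), Real.cos ((((K : ℝ) + 1) - i) * θ) =
        ∑ l ∈ range (K + 1), Real.cos (((l : ℝ) + 1) * θ) := by
      rw [← Finset.sum_range_reflect (fun l : ℕ => Real.cos (((l : ℝ) + 1) * θ)) (K + 1)]
      refine Finset.sum_congr rfl fun i hi => ?_
      rw [Finset.mem_range] at hi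
      have h1 : ((K + 1 - 1 - i : ℕ) : ℝ) = (K : ℝ) - i := by
        rw [Nat.add_sub_cancel, Nat.cast_sub (by omega)]
      rw [h1]
      congr 1
      ring
    have hc : (∑ i ∈ range (K + 1), Real.cos ((i : ℝ) * θ)) * Real.cos (((K : ℝ) + 1) * θ) +
        (∑ i ∈ range (K + 1), Real.sin ((i : ℝ) * θ)) * Real.sin (((K : ℝ) + 1) * θ) =
        ∑ l ∈ range (K + 1), Real.cos (((l : ℝ) + 1) * θ) := by
      rw [← hs, Finset.sum_mul, Finset.sum_mul, ← Finset.sum_add_distrib]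
      refine Finset.sum_congr rfl fun i _ => ?_
      rw [show (((K : ℝ) + 1) - i) * θ = ((K : ℝ) + 1) * θ - (i : ℝ) * θ by ring, Real.cos_sub]
      ring
    have hl : ∑ l ∈ range (K + 1), (((K + 1 : ℕ) : ℝ) - l) * Real.cos (((l : ℝ) + 1) * θ) =
        ∑ l ∈ range K, ((K : ℝ) - l) * Real.cos (((l : ℝ) + 1) * θ) +
          ∑ l ∈ range (K + 1), Real.cos (((l : ℝ) + 1) * θ) := by
      have h1 : ∑ l ∈ range (K + 1), (((K + 1 : ℕ) : ℝ) - l) * Real.cos (((l : ℝ) + 1) * θ) =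
          ∑ l ∈ range (K + 1), ((K : ℝ) - l) * Real.cos (((l : ℝ) + 1) * θ) +
            ∑ l ∈ range (K + 1), Real.cos (((l : ℝ) + 1) * θ) := by
        rw [← Finset.sum_add_distrib]
        refine Finset.sum_congr rfl fun l _ => ?_
        push_cast
        ring
      rw [h1, Finset.sum_range_succ (fun l : ℕ => ((K : ℝ) - l) * Real.cos (((l : ℝ) + 1) * θ))]
      ring
    rw [Finset.sum_range_succ (fun i : ℕ => Real.cos ((i : ℝ) * θ)) (K + 1),
      Finset.sum_range_succ (fun i : ℕ => Real.sin ((i : ℝ) * θ)) (K + 1), hl]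
    have h5 := Real.sin_sq_add_cos_sq (((K : ℝ) + 1) * θ)
    push_cast
    linear_combination ih - 2 * hc - h5

theorem fej_nonneg (K : ℕ) (θ : ℝ) : 0 ≤ fej K θ := by
  have hK : (0 : ℝ) < (K : ℝ) + 1 := by positivity
  have h1 : ((K : ℝ) + 1) * fej K θ =
      ((K : ℝ) + 1) + 2 * ∑ l ∈ range K, ((K : ℝ) - l) * Real.cos (((l : ℝ) + 1) * θ) := by
    rw [fej_eq, mul_add, mul_one, Finset.mul_sum, Finset.mul_sum]
    congr 1
    refine Finset.sum_congr rfl fun l _ => ?_
    field_simp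
    ring
  have h2 : 0 ≤ ((K : ℝ) + 1) * fej K θ := by
    rw [h1, sq_eq]
    positivity
  exact nonneg_of_mul_nonneg_right h2 hK

theorem fej_complex (K : ℕ) (θ : ℝ) : ((fej K θ : ℝ) : ℂ) =
    ∑ k ∈ Finset.Icc (-(K : ℤ)) K, ((1 - |(k : ℝ)| / (K + 1) : ℝ) : ℂ) *
      Complex.exp ((k : ℂ) * (θ : ℂ) * Complex.I) := by
  rw [icc_sum, fej_eq]
  push_cast
  congr 1
  · simp
  · refine Finset.sum_congr rfl fun l _ => ?_
    have h1 : |(l : ℝ) + 1| = (l : ℝ) + 1 := abs_of_nonneg (by positivity)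
    have h2 : |(-1 : ℝ) + -(l : ℝ)| = (l : ℝ) + 1 := by
      rw [abs_of_nonpos (by
        have : (0:ℝ) ≤ l := Nat.cast_nonneg l
        linarith)]
      ring
    have h2' : |-((l : ℝ) + 1)| = (l : ℝ) + 1 := by
      rw [abs_neg, h1]
    have h3 : Complex.cos (((l : ℂ) + 1) * (θ : ℂ)) =
        (Complex.exp (((l : ℂ) + 1) * (θ : ℂ) * Complex.I) +
          Complex.exp (-(((l : ℂ) + 1)) * (θ : ℂ) * Complex.I)) / 2 := by
      rw [Complex.cos]
      congr 3
      ring
    simp only [h1, h2', h3]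
    push_cast
    ring

/-- **FEJ**. -/
theorem T_FEJ : P_FEJ := fun K θ => ⟨fej_nonneg K θ, fej_complex K θ⟩

end Pool.Agent.H349.FP
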